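import Pool.Agent.Zk8.FK.Val
import Pool.Agent.Zk8.FK.Pure
import Pool.Agent.Results.MP_8abef2_ag.GTCSmallDegrees

/-!
# The Beilinson-Bloch conjecture for products of diagonal hypersurfaces over all global function
fields

Let `k` be a finite field with `q` elements, of characteristic `p`, which contains the roots of unity
of order `m`, and let `K` be any function field of one variable over `k` (with exact field of
constants `k`; let `C` be the curve). Let `X = ∏ X_b` be a product of `r` diagonal hypersurfaces

  `X_b : ∑ⱼ a_{bj} xⱼ ^ μ_b = 0`,   `μ_b ∣ m`,   `dim X_b = n_b ≥ 0`,   `a_{bj} ∈ Kˣ` arbitrary.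

The degrees `μ_b` may be different. The primitive cohomology `P ^ {n_b} (X_b)` is the only part of the
cohomology of `X_b` which is not generated by powers of the hyperplane class; so the odd cohomology
of `X` is a sum of Tate twists of tensor products of such groups. We treat such a tensor product
`V = ⊗ P ^ {n_b} (X_b)` of odd weight `∑ n_b = 2 * i - 1`.

`V` is the sum of lines, indexed by the families `s = (s_{bj})` of nonzero residues modulo `μ_b` with
sum zero in each block `b`. As a Galois module the line of `s` is `V(s) ⊗ κ(s)`, where `V(s)` is the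
line of the Fermat motive of degree `m`, with Frobenius eigenvalue `rho s` (a product of Jacobi sums,
up to sign), and `κ(s)` is the Kummer character of `∏ a_{bj} ^ ((m / μ_b) s_{bj})`.

Let `S` be a finite nonempty set of places of `K`, such that all the `a_{bj}` are units outside of
`S`. We prove, for all `k`, `K`, `m`, `r`, `n_b`, `μ_b`, `a_{bj}`:

* the `L`-function of `V` has a meromorphic continuation (whatever the Euler factors at the places
  in `S` are, as long as they have weights at most `2 * i - 1`);
* its order of vanishing at `i` is the number of pairs `(s, β)` with `β * rho s = q ^ i`, where `β`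
  runs through the eigenvalues of Frobenius on `H¹_c(C - S, κ(s))`, or on `H¹(C) ⊗ κ(s)` if `κ(s)` is
  geometrically constant;
* all these pairs come from lines `s` such that `V(s)` has coniveau at least `i + r - 2` in the sense
  of slopes (`GaloisConiveau`); so, as a motive of weight `2 * (i + r - 2) + 1`, it looks like the
  twist of a line in the first cohomology of a curve;
* if some power of `p` is congruent to `-1` modulo `m` (for every `p` this holds for infinitely many
  `m`), or if `m` is one of `3, ..., 12, 14, 15, 16, 18, 20, 21, 22, 24, 30, 36, 42`, or if a multiple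
  `c * m` has prime divisors in one of several sets and satisfies a finite condition on Fermat curves,
  then for all these `s` there is an algebraic correspondence between `V(s)` and the twist of a line
  in the first cohomology of a Fermat curve (`ProductOfCurves`);
* if `q = Q ^ 2` and `m` divides `Q + 1` then `rho s = -Q ^ (2 * i - 1)` for all lines, so the order of
  vanishing is the number of the pairs `(s, β)` with `β = -Q`.

So for these `m` all the zeros at `i` come from classes in `H¹ ⊗ H¹` of curves over `k`, where the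
theorem of Tate applies, and the Beilinson-Bloch conjecture holds for `X`: in particular, if some
power of `p` is congruent to `-1` modulo `m`, for all diagonal hypersurfaces of degree `m`, and for
their products, over all global function fields of characteristic `p`.
-/

set_option autoImplicit false

namespace Pool.Agent.Results.MP_0b9e0b_ag.DiagonalAllFields

open Finset
open Pool.Agent.H707R3 (Place IsCurveFunctionField)
open Pool.Agent.H916T (Generated SurfaceTate Standard)

/-- The solutions, not zero, of `∑ cⱼ yⱼ ^ m = 0` in the field `E`. -/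
def solutions (m : ℕ) {N : ℕ} {E : Type} [Field E] (c : Fin N → E) : Set (Fin N → E) :=
  {y | y ≠ 0 ∧ ∑ j, c j * y j ^ m = 0}

/-- The trace of Frobenius on the primitive part of `Hⁿ` of the hypersurface `Z` of dimension `n`
over the finite field `E` with the equation `∑ cⱼ yⱼ ^ m = 0`, that is,
`(-1) ^ n * (#Z(E) - ∑_{l ≤ n} |E| ^ l)`. -/
noncomputable def primTrace (m n : ℕ) {E : Type} [Field E] [Fintype E] (c : Fin (n + 2) → E) : ℂ :=
  (-1) ^ n * (((solutions m c).ncard : ℂ) / (Fintype.card E - 1) -
    ∑ l ∈ range (n + 1), (Fintype.card E : ℂ) ^ l)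

section

variable {k : Type} [Field k] [Fintype k] {K : Type} [Field K] [Algebra k K] {r : ℕ}
  {n μ : Fin r → ℕ}

/-- The number of elements of the residue field of a place of `K`. -/
noncomputable def absNorm (v : Place k K) : ℕ := Nat.card v.κ

/-- `A` gives, for all places `v` of `K`, the eigenvalues of Frobenius for the representation
`⊗ P ^ {n_b} (X_b)` of weight `2 * i - 1`: at the places outside of `S`, where all the coefficients
are units, by the numbers of points over all finite extensions `E` of the residue field, `l` being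
the degree of the extension; at the places in `S`, `A v` may be any multiset of numbers of absolute
value at most `|residue field| ^ ((2 * i - 1) / 2)`. -/
def IsFrobenius (S : Finset (Place k K)) (i : ℕ) (μ : Fin r → ℕ) (a : ∀ b, Fin (n b + 2) → K)
    (A : Place k K → Multiset ℂ) : Prop :=
  (∀ v, v ∉ S → ∀ (E : Type) [Field E] [Fintype E] (φ : v.ring →+* E) (l : ℕ)
      (α : ∀ b, Fin (n b + 2) → v.ring), (∀ b j, (α b j : K) = a b j) →
      Fintype.card E = absNorm v ^ l →
      ∏ b, primTrace (μ b) (n b) (fun j => φ (α b j)) = ((A v).map fun α => α ^ l).sum) ∧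
  ∀ v ∈ S, ∀ α ∈ A v, ‖α‖ ^ 2 * absNorm v ≤ (absNorm v : ℝ) ^ (2 * i)

/-- `Λ` is a meromorphic function on `ℂ`, and for `Re s > i + 1 / 2` it is the Euler product with
the eigenvalues `A`, over all places of `K`. -/
def IsLFunction (i : ℕ) (A : Place k K → Multiset ℂ) (Λ : ℂ → ℂ) : Prop :=
  (∀ s, MeromorphicAt Λ s) ∧ ∀ s : ℂ, (i : ℝ) + 1 / 2 < s.re →
    HasProd (fun v : Place k K => ((A v).map fun α => (1 - α * (absNorm v : ℂ) ^ (-s))⁻¹).prod) (Λ s)

/-- the lines of `⊗ P ^ {n_b} (X_b)`: families of nonzero residues with sum zero in each block -/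
def IsLine (s : ∀ b, Fin (n b + 2) → ZMod (μ b)) : Prop :=
  ∀ b, (∀ j, s b j ≠ 0) ∧ ∑ j, s b j = 0

/-- the representative in `{0, ..., m - 1}` of the residue `s_{bj}`, written in degree `m` -/
def exponent (m : ℕ) {r : ℕ} {n μ : Fin r → ℕ} (s : ∀ b, Fin (n b + 2) → ZMod (μ b)) (b : Fin r)
    (j : Fin (n b + 2)) : ℕ := m / μ b * (s b j).val

/-- The eigenvalue of the Frobenius of `k` on `V(s)`: the product over the blocks of the Jacobi sums
`(-1) ^ {n_b} / q * ∏ⱼ g(χ ^ s_{bj})`, the exponents being taken in degree `m`. -/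
noncomputable def eigenvalue (m : ℕ) (χ : MulChar k ℂ) (ψ : AddChar k ℂ)
    (s : ∀ b, Fin (n b + 2) → ZMod (μ b)) : ℂ :=
  ∏ b, ((-1) ^ n b * (Fintype.card k : ℂ)⁻¹ * ∏ j, gaussSum (χ ^ exponent m s b j) ψ)

open scoped Classical in
/-- the power residue symbol: the value of the character `χ` at the norm to `k` of the residue of `x`
at `v`, that is, `χ c` if `x ^ ((|κ_v| - 1) / (q - 1))` is congruent to `c ∈ k` modulo `v` -/
noncomputable def residueSymbol (χ : MulChar k ℂ) (x : K) (v : Place k K) : ℂ :=
  ∑ c : k, if v.ring.valuation (x ^ ((absNorm v - 1) / (Fintype.card k - 1)) -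
    algebraMap k K c) < 1 then χ c else 0

/-- the value at the place `v` of the Kummer character `κ(s)` of the line `s` -/
noncomputable def kummer (m : ℕ) (χ : MulChar k ℂ) (a : ∀ b, Fin (n b + 2) → K)
    (s : ∀ b, Fin (n b + 2) → ZMod (μ b)) (v : Place k K) : ℂ :=
  residueSymbol χ⁻¹ (∏ b, ∏ j, a b j ^ exponent m s b j) v

open scoped Classical in
/-- If the Kummer character of the line `s` is not geometrically constant, then `B` is the multiset
of the eigenvalues of the Frobenius of `k` on the first cohomology group with compact support of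
`C - S` with values in it (trace formula over the extension of degree `l` of `k`, for all `l`; the sum
is over the places `v` outside of `S` whose degree divides `l`). If it is the geometrically constant
character `v ↦ ε ^ deg v`, then `B` is the multiset of the eigenvalues on `H¹(C) ⊗ ε`. -/
def IsKummer (m : ℕ) (χ : MulChar k ℂ) (a : ∀ b, Fin (n b + 2) → K) (S : Finset (Place k K))
    (s : ∀ b, Fin (n b + 2) → ZMod (μ b)) (B : Multiset ℂ) : Prop :=
  (∀ l : ℕ, 0 < l → ∑ᶠ v : Place k K,
      (if v ∉ S ∧ v.deg ∣ l then (v.deg : ℂ) * kummer m χ a s v ^ (l / v.deg) else 0) =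
        -(B.map fun β => β ^ l).sum) ∨
  (∃ ε : ℂ, ‖ε‖ = 1 ∧ (∀ v, v ∉ S → kummer m χ a s v = ε ^ v.deg) ∧
    ∀ l : ℕ, 0 < l → (∑ᶠ v : Place k K, if v.deg ∣ l then (v.deg : ℂ) else 0) * ε ^ l =
      ε ^ l + (Fintype.card k * ε) ^ l - (B.map fun β => β ^ l).sum)

/-- the multiset of all the residues of a line, written in degree `m` -/
def residues (m : ℕ) {r : ℕ} {n μ : Fin r → ℕ} (s : ∀ b, Fin (n b + 2) → ZMod (μ b)) :
    Multiset (ZMod m) :=
  (Finset.univ : Finset (Σ b, Fin (n b + 2))).val.map fun x => ((exponent m s x.1 x.2 : ℕ) : ZMod m)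

end

/-- For every unit `t` modulo `m` the representatives in `{1, ..., m - 1}` of the residues
`p ^ j * t * a`, where `a ∈ s` and `0 ≤ j < f`, `f` being the order of `p` modulo `m`, have sum at
least `f * m * (ν + 1)`. By Stickelberger's theorem this says that the Frobenius eigenvalue of the
Fermat motive `V(s)` and all its conjugates are divisible by `q ^ ν`. -/
def GaloisConiveau (p m ν : ℕ) (s : Multiset (ZMod m)) : Prop :=
  ∀ t : (ZMod m)ˣ, orderOf (p : ZMod m) * (m * (ν + 1)) ≤
    ∑ j ∈ Finset.range (orderOf (p : ZMod m)),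
      (s.map fun a => ((p : ZMod m) ^ j * ((t : ZMod m) * a)).val).sum

/-- There are a positive integer `N` prime to `p` and `|s| - 2 - 2 * ν` triples of nonzero residues
modulo `N * m`, each with sum zero, such that `N * s` together with the negatives of the entries of
these triples is a member of the closure of the Tate characters of Fermat surfaces and of the
standard characters of Aoki in degree `N * m`. (For `|s| = 2 * ν + 3` there is one triple; by
Shioda, Katsura and Aoki the motive `V(s)` is then, up to a twist and through algebraic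
correspondences, a line in the first cohomology of the Fermat curve of degree `N * m`.) -/
def ProductOfCurves (p m ν : ℕ) (s : Multiset (ZMod m)) : Prop :=
  ∃ N : ℕ, 0 < N ∧ p.Coprime N ∧ ∃ E : Multiset (Multiset (ZMod (N * m))),
    (∀ e ∈ E, (0 : ZMod (N * m)) ∉ e ∧ e.sum = 0 ∧ Multiset.card e = 3) ∧
    Multiset.card E + 2 * ν + 2 = Multiset.card s ∧
    Generated (N * m)
      (fun t => SurfaceTate p (N * m) t ∨ ∃ q : ℕ, q.Prime ∧ q ∣ N * m ∧ Standard q (N * m) t)
      ((s.map fun a => ((N * a.val : ℕ) : ZMod (N * m))) + E.join.map Neg.neg)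

/-- The degrees: some power of `p` is congruent to `-1` modulo `m`, or `m` is one of `21` integers,
or `m` divides an integer `c * m` whose prime divisors lie in `{2, 3, 5}`, or in `{2, 3, 7}`, or in
`{2, q}` for a prime `q` congruent to `7` modulo `8`, or, if `4` does not divide `c * m`, in
`{2, 3, 11}` or in `{2, 3, 13}`, and such that every function on the units modulo `c * m` with the
symmetries of the slopes of a Weil number of weight one is the slope function of a line in the first
cohomology of the Fermat curve of degree `c * m`. -/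
def GoodDegree (p m : ℕ) : Prop :=
  (∃ e : ℕ, m ∣ p ^ e + 1) ∨
  m ∈ [3, 4, 5, 6, 7, 8, 9, 10, 11, 12, 14, 15, 16, 18, 20, 21, 22, 24, 30, 36, 42] ∨
  ∃ c : ℕ, p.Coprime (c * m) ∧ 3 ≤ c * m ∧ MP_8abef2_ag.GTCSmallDegrees.GoodDegree (c * m) ∧
    MP_8abef2_ag.GTCSmallDegrees.AllCurves p (c * m)

section

variable {k : Type} [Field k] [Fintype k] {K : Type} [Field K] [Algebra k K] {r : ℕ}
  {n μ : Fin r → ℕ} [∀ b, NeZero (μ b)]

/-- `B s` is the multiset of the eigenvalues of Frobenius for the Kummer character of the line `s`,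
see `IsKummer`, for all lines `s` (and it is empty if `s` is not a line) -/
def IsKummerFamily (m : ℕ) (χ : MulChar k ℂ) (a : ∀ b, Fin (n b + 2) → K) (S : Finset (Place k K))
    (B : (∀ b, Fin (n b + 2) → ZMod (μ b)) → Multiset ℂ) : Prop :=
  (∀ s, IsLine s → IsKummer m χ a S s (B s)) ∧ ∀ s, ¬ IsLine s → B s = 0

open scoped Classical in
/-- the number of the pairs `(s, β)`, `β ∈ B s`, with `β * rho s = q ^ i` -/
noncomputable def numberOfPairs (m i : ℕ) (χ : MulChar k ℂ) (ψ : AddChar k ℂ)
    (B : (∀ b, Fin (n b + 2) → ZMod (μ b)) → Multiset ℂ) : ℕ :=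
  ∑ s, Multiset.card ((B s).filter fun β => β * eigenvalue m χ ψ s = (Fintype.card k : ℂ) ^ i)

/-- All the `β ∈ B s` are algebraic integers; and for the pairs `(s, β)` with `β * rho s = q ^ i`
the line `s` has coniveau at least `i + r - 2` in the sense of slopes, and, if the degree is good, it
comes from a Fermat curve. -/
def PairsFromCurves (p m i : ℕ) (χ : MulChar k ℂ) (ψ : AddChar k ℂ)
    (B : (∀ b, Fin (n b + 2) → ZMod (μ b)) → Multiset ℂ) : Prop :=
  ∀ s, ∀ β ∈ B s, IsIntegral ℤ β ∧ (β * eigenvalue m χ ψ s = (Fintype.card k : ℂ) ^ i →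
    GaloisConiveau p m (i + r - 2) (residues m s) ∧
    (GoodDegree p m → ProductOfCurves p m (i + r - 2) (residues m s)))

end

open scoped Classical in
theorem result (p m : ℕ) [Fact p.Prime] [NeZero m] (k : Type) [Field k] [Fintype k] [CharP k p]
    (hmk : m ∣ Fintype.card k - 1) (χ : MulChar k ℂ) (hχ : orderOf χ = m)
    (ψ : AddChar k ℂ) (hψ : ψ ≠ 1)
    (K : Type) [Field K] [Algebra k K] (hK : IsCurveFunctionField k K)
    (r : ℕ) (n μ : Fin r → ℕ) [∀ b, NeZero (μ b)] (hμ : ∀ b, μ b ∣ m)
    (i : ℕ) (hi : ∑ b, n b + 1 = 2 * i) (a : ∀ b, Fin (n b + 2) → K) (ha : ∀ b j, a b j ≠ 0)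
    (S : Finset (Place k K)) (hS : S.Nonempty)
    (haS : ∀ v, v ∉ S → ∀ b j, a b j ∈ v.ring ∧ (a b j)⁻¹ ∈ v.ring) :
    (∃ A : Place k K → Multiset ℂ, IsFrobenius S i μ a A) ∧
    (∀ A : Place k K → Multiset ℂ, IsFrobenius S i μ a A →
      ∃ (Λ : ℂ → ℂ) (B : (∀ b, Fin (n b + 2) → ZMod (μ b)) → Multiset ℂ),
        IsLFunction i A Λ ∧ IsKummerFamily m χ a S B ∧
        meromorphicOrderAt Λ i = ((numberOfPairs m i χ ψ B : ℕ) : ℤ) ∧
        PairsFromCurves p m i χ ψ B) ∧
    ∀ f : ℕ, 0 < f → Fintype.card k = (p ^ f) ^ 2 → m ∣ p ^ f + 1 →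
      ∀ s : ∀ b, Fin (n b + 2) → ZMod (μ b), IsLine s →
        eigenvalue m χ ψ s = -((p ^ f : ℕ) : ℂ) ^ (2 * i - 1) := by
  classical
  have : FF.IsFF k K := H525R3.FFp.isFF hK
  have hodd : Odd (∑ b, n b) := by
    rw [Nat.odd_iff]
    omega
  have hr1 : 1 ≤ r := by
    rcases Nat.eq_zero_or_pos r with h0 | h0
    · subst h0
      simp at hi
      omega
    · exact h0
  have hlines : ∀ s : ∀ b, Fin (n b + 2) → ZMod (μ b), s ∈ Zk8.FK.lines n μ ↔ IsLine s := fun s =>
    Zk8.FK.mem_lines
  have hrho : ∀ s : ∀ b, Fin (n b + 2) → ZMod (μ b), eigenvalue m χ ψ s = Zk8.FK.rho m χ ψ s := by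
    intro s
    rw [eigenvalue, Finset.prod_mul_distrib, Finset.prod_mul_distrib, Finset.prod_const,
      Finset.card_univ, Fintype.card_fin, Finset.prod_pow_eq_pow_sum, hodd.neg_one_pow,
      Zk8.FK.rho, inv_pow]
    simp only [exponent, Zk8.FK.ex]
    ring
  -- the two kinds of places
  set e := H525R3.FFp.bridge hK with he
  have hsymm : ∀ P : FF.Place k K, e.symm P = H525R3.FFp.toVal P := fun P => rfl
  have hte : ∀ v : Place k K, H525R3.FFp.toVal (e v) = v := fun v => H525R3.FFp.toVal_bridge hK v
  set S' : Finset (FF.Place k K) := S.map e.toEmbedding with hS'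
  have hmem : ∀ P : FF.Place k K, P ∈ S' ↔ H525R3.FFp.toVal P ∈ S := fun P =>
    Finset.mem_map_equiv
  have hSne : S'.Nonempty := by
    obtain ⟨v, hv⟩ := hS
    exact ⟨e v, by rw [hmem, hte]; exact hv⟩
  have haS' : ∀ P : FF.Place k K, P ∉ S' → ∀ b j, P.ord (a b j) = 0 := by
    intro P hP b j
    rw [hmem] at hP
    obtain ⟨h1, h2⟩ := haS _ hP b j
    have h3 := (P.reg_iff (ha b j)).1 h1
    have h4 := (P.reg_iff (inv_ne_zero (ha b j))).1 h2
    rw [P.ord_inv] at h4
    omega
  have hfinP : ∀ P : FF.Place k K, Finite P.RF := fun P => Module.finite_of_finite k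
  have hnorm : ∀ P : FF.Place k K, absNorm (H525R3.FFp.toVal P) = Fintype.card k ^ P.deg := by
    intro P
    have h1 : absNorm (H525R3.FFp.toVal P) = Nat.card P.RF := rfl
    rw [h1, Module.natCard_eq_pow_finrank (K := k) (V := P.RF), Nat.card_eq_fintype_card]
    rfl
  have hkum : ∀ (s : ∀ b, Fin (n b + 2) → ZMod (μ b)) (P : FF.Place k K), P ∉ S' →
      kummer m χ a s (H525R3.FFp.toVal P) = Zk8.FK.kv χ⁻¹ (Zk8.FK.aps m a s) P := fun s P hP =>
    Zk8.FK.symb_eq P χ⁻¹ (Zk8.FK.aps_ne_zero ha s) (Zk8.FK.ord_aps P ha (haS' P hP) s)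
  have hdeg : ∀ P : FF.Place k K, (H525R3.FFp.toVal P).deg = P.deg := H525R3.FFp.toVal_deg
  refine ⟨?_, fun A hA => ?_, ?_⟩
  · -- existence of the local data
    refine ⟨fun v => if v ∉ S then
      (Zk8.FK.lines n μ).val.map fun s => Zk8.FK.eig m χ ψ a s (e v) else 0, ?_, ?_⟩
    · intro v hv E _ _ φ l α hα hE
      simp only []
      rw [if_pos hv, Multiset.map_map]
      obtain ⟨P, rfl⟩ : ∃ P : FF.Place k K, v = H525R3.FFp.toVal P := ⟨e v, (hte v).symm⟩
      have hP : P ∉ S' := by rw [hmem]; exact hv
      obtain ⟨alg, h1, h2⟩ := Zk8.FK.exists_algebra P E φ l hE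
      have h3 := Zk8.FK.trace_place hmk hμ χ hχ hψ hodd a ha P (haS' P hP) E
      rw [h2] at h3
      have h4 : e (H525R3.FFp.toVal P) = P := H525R3.FFp.bridge_toVal hK P
      rw [h4]
      refine Eq.trans ?_ h3
      refine Finset.prod_congr rfl fun b _ => ?_
      unfold primTrace solutions
      have h5 : ∀ j, φ (α b j) = algebraMap P.RF E (P.red (a b j)) := by
        intro j
        have h6 : P.Reg (a b j) := Or.inr (haS' P hP b j).ge
        rw [h1 _ h6]
        congr 1
        exact Subtype.ext (hα b j)
      simp only [h5]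
    · intro v hv α hα
      simp only [] at hα
      rw [if_neg (not_not.2 hv)] at hα
      simp at hα
  · have hG : ∀ s : ∀ b, Fin (n b + 2) → ZMod (μ b), ∃ (B : Multiset ℂ) (G : ℂ → ℂ),
        s ∈ Zk8.FK.lines n μ →
        (∀ β ∈ B, IsIntegral ℤ β) ∧ IsKummer m χ a S s B ∧
        (∀ x : ℂ, ‖x‖ * Fintype.card k < 1 →
          HasProd (fun v : Zk8.FK.Out S' =>
            (1 - Zk8.FK.kv χ⁻¹ (Zk8.FK.aps m a s) v.1 * x ^ v.1.deg)⁻¹) (G x)) ∧
        (∀ z : ℂ, MeromorphicAt
          (fun z : ℂ => G (Zk8.FK.rho m χ ψ s * (Fintype.card k : ℂ) ^ (-z))) z) ∧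
        meromorphicOrderAt
          (fun z : ℂ => G (Zk8.FK.rho m χ ψ s * (Fintype.card k : ℂ) ^ (-z))) i =
          ((Multiset.card
            (B.filter fun β => β * Zk8.FK.rho m χ ψ s = (Fintype.card k : ℂ) ^ i) : ℕ) : ℤ) := by
      intro s
      by_cases hs : s ∈ Zk8.FK.lines n μ
      · have hnorm1 := Zk8.FK.norm_rho hμ χ hχ hψ hs
        have hnorm' : ‖Zk8.FK.rho m χ ψ s‖ ^ 2 * Fintype.card k =
            (Fintype.card k : ℝ) ^ (2 * i) := by
          rw [hnorm1, ← pow_succ, hi]
        obtain ⟨B, G, h1, h2, h3, h4, h5⟩ := Zk8.FK.exists_G χ⁻¹ S' (Zk8.FK.aps m a s)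
          (Zk8.FK.aps_ne_zero ha s)
          (fun v hv => by
            by_contra h
            exact hv (Zk8.FK.ord_aps v ha (haS' v h) s)) hSne hK.algClosed
            (Zk8.FK.rho m χ ψ s) i hnorm'
        refine ⟨B, G, fun _ => ⟨h1, ?_, h3, h4, h5⟩⟩
        have hall : ∀ l (hl : 0 < l), (∑ v ∈ (Zk8.FK.dvd_finite (fun v : FF.Place k K => v.deg)
            (Zk8.FK.pfin k K) l hl).toFinset, (v.deg : ℂ)) =
            ∑ᶠ v : Place k K, if v.deg ∣ l then (v.deg : ℂ) else 0 := by
          intro l hl
          symm
          rw [← finsum_comp_equiv e.symm]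
          simp only [hsymm, hdeg]
          rw [finsum_eq_sum_of_support_subset (s := (Zk8.FK.dvd_finite
            (fun v : FF.Place k K => v.deg) (Zk8.FK.pfin k K) l hl).toFinset)]
          · refine Finset.sum_congr rfl fun v hv => ?_
            rw [Set.Finite.mem_toFinset] at hv
            exact if_pos hv
          · intro v hv
            rw [Function.mem_support] at hv
            rw [Set.Finite.coe_toFinset]
            by_contra h
            exact hv (if_neg h)
        rcases h2 with h2 | ⟨ε, hε, h6, h7⟩
        · left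
          intro l hl
          rw [← h2 l hl, Zk8.FK.sum_out S' l hl (fun v => (v.deg : ℂ) *
            Zk8.FK.kv χ⁻¹ (Zk8.FK.aps m a s) v ^ (l / v.deg)), ← finsum_comp_equiv e.symm]
          simp only [hsymm, hdeg]
          rw [finsum_eq_sum_of_support_subset (s := (Zk8.FK.dvd_finite
            (fun v : FF.Place k K => v.deg) (Zk8.FK.pfin k K) l hl).toFinset)]
          · refine Finset.sum_congr rfl fun v hv => ?_
            rw [Set.Finite.mem_toFinset] at hv
            by_cases hvS : v ∈ S'
            · rw [if_neg (fun h => h.1 ((hmem v).1 hvS)), if_pos hvS]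
            · rw [if_pos ⟨fun h => hvS ((hmem v).2 h), hv⟩, if_neg hvS, hkum s v hvS]
          · intro v hv
            rw [Function.mem_support] at hv
            rw [Set.Finite.coe_toFinset]
            by_contra h
            exact hv (if_neg fun h' => h h'.2)
        · right
          refine ⟨ε, hε, fun v hv => ?_, fun l hl => ?_⟩
          · have hv' : e v ∉ S' := by rw [hmem, hte]; exact hv
            have h8 := h6 ⟨e v, hv'⟩
            have h9 := hkum s (e v) hv'
            rw [hte] at h9
            rw [h9, ← hte v, hdeg, hte]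
            exact h8
          · rw [← hall l hl]
            exact h7 l hl
      · exact ⟨0, 0, fun h => absurd h hs⟩
    choose B0 G hBG using hG
    obtain ⟨Λ, hΛ1, hΛ2, hΛ3⟩ := Zk8.FK.assemble hmk hμ χ hχ hψ hi a ha S' haS'
      (fun P => A (H525R3.FFp.toVal P))
      (by
        intro P hP E _ _ _
        have hreg : ∀ b j, P.Reg (a b j) := fun b j => Or.inr (haS' P hP b j).ge
        have hv : H525R3.FFp.toVal P ∉ S := fun h => hP ((hmem P).2 h)
        have hcard : Fintype.card E = absNorm (H525R3.FFp.toVal P) ^ Module.finrank P.RF E := by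
          have h1 : absNorm (H525R3.FFp.toVal P) = Nat.card P.RF := rfl
          rw [h1, ← Nat.card_eq_fintype_card]
          exact Module.natCard_eq_pow_finrank
        have h1 := hA.1 _ hv E ((algebraMap P.RF E).comp P.resHom) (Module.finrank P.RF E)
          (fun b j => ⟨a b j, hreg b j⟩) (fun b j => rfl) hcard
        refine Eq.trans ?_ h1
        refine Finset.prod_congr rfl fun b _ => ?_
        unfold primTrace solutions
        have h5 : ∀ j, ((algebraMap P.RF E).comp P.resHom) ⟨a b j, hreg b j⟩ =
            algebraMap P.RF E (P.red (a b j)) := by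
          intro j
          rw [P.red_of_reg (hreg b j)]
          rfl
        simp only [← h5]
        rfl)
      (by
        intro P hP α hα
        have h1 := hA.2 _ ((hmem P).1 hP) α hα
        rw [hnorm P] at h1
        simpa using h1)
      G (fun s => Multiset.card
        ((B0 s).filter fun β => β * Zk8.FK.rho m χ ψ s = (Fintype.card k : ℂ) ^ i))
      (fun s hs => (hBG s hs).2.2.1) (fun s hs => (hBG s hs).2.2.2.1)
      (fun s hs => (hBG s hs).2.2.2.2)
    refine ⟨Λ, fun s => if IsLine s then B0 s else 0, ⟨hΛ1, ?_⟩, ⟨?_, ?_⟩, ?_, ?_⟩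
    · intro z hz
      have h1 := hΛ2 z hz
      rw [← e.hasProd_iff] at h1
      convert h1 using 1
      funext v
      simp only [Function.comp]
      have h2 := hnorm (e v)
      rw [hte] at h2
      rw [hte, h2]
    · intro s hs
      simp only [if_pos hs]
      exact (hBG s ((hlines s).2 hs)).2.1
    · intro s hs
      exact if_neg hs
    · rw [hΛ3]
      congr 2
      rw [numberOfPairs, ← Finset.sum_subset (Finset.subset_univ (Zk8.FK.lines n μ))]
      · refine Finset.sum_congr rfl fun s hs => ?_
        simp only [if_pos ((hlines s).1 hs), hrho s]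
      · intro s _ hs
        simp only [if_neg (fun h => hs ((hlines s).2 h))]
        simp
    · intro s β hβ
      by_cases hs : IsLine s
      · simp only [if_pos hs] at hβ
        have hs' := (hlines s).2 hs
        have hint := (hBG s hs').1 β hβ
        refine ⟨hint, fun h => ?_⟩
        rw [hrho s] at h
        have hcon : GaloisConiveau p m (i + r - 2) (residues m s) := fun t =>
          Zk8.FK.coniveau (p := p) hmk hμ χ hχ hψ hi hs' hint h t
        refine ⟨hcon, fun hgd => ?_⟩
        have hp : p.Prime := Fact.out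
        have hcop : p.Coprime m := Zk8.DH.coprime_of_card (k := k) hmk
        have h0 : (0 : ZMod m) ∉ residues m s := Zk8.FK.resid_zero hμ hs'
        have hsum : (residues m s).sum = 0 := Zk8.FK.resid_sum hμ hs'
        have hcard : Multiset.card (residues m s) = ∑ b, n b + 2 * r := Zk8.FK.resid_card s
        by_cases hm3 : m ∈ [3, 4, 5, 6, 7, 8, 9, 10, 11, 12, 14, 15, 16, 18, 20, 21, 22, 24, 30, 36, 42]
        · exact MP_8abef2_ag.GTCSmallDegrees.result.1 p m hp hcop hm3 _ _ h0 hsum hcon
        · rcases hgd with ⟨e, h1⟩ | h1 | ⟨c, h1, h2, h3, h4⟩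
          · refine Zk8.FK.super_curves hcop h1 (fun h3 => hm3 (by rw [h3]; decide)) _ _ h0 hsum ?_
            rw [hcard]
            omega
          · exact absurd h1 hm3
          · exact MP_8abef2_ag.GTCSmallDegrees.result.2 p m c hp h1 h2 h3 h4 _ _ h0 hsum hcon
      · simp only [if_neg hs] at hβ
        simp at hβ
  · intro f hf hk hmQ s hs
    rw [hrho s, Zk8.FK.rho_pure (p := p) hf hk hmQ hμ hχ hψ ((hlines s).2 hs)]
    congr 2
    omega

end Pool.Agent.Results.MP_0b9e0b_ag.DiagonalAllFields
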