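import Pool.Agent.Zk8.DT.Known
import Pool.Agent.Zk8.DT.Pure
import Pool.Agent.Zk8.DH.Defs
import Pool.Agent.Zk8.FK.Super

/-!
# The Beilinson-Bloch conjecture for diagonal hypersurfaces over `k(t)` ramified over `0`, the roots
of unity and infinity: the exact order of vanishing

Let `k` be a finite field with `q` elements, `m * d ∣ q - 1`, and let `X = ∏ X_b` be a product of
`r` diagonal hypersurfaces

  `X_b : ∑ⱼ c_{bj} t ^ u_{bj} (1 - t ^ d) ^ v_{bj} xⱼ ^ m = 0`,   `dim X_b = n_b`,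

over `k(t)`, with arbitrary constants `c_{bj} ∈ kˣ` and arbitrary exponents. (Only the exponents
modulo `m` matter for `X_b`; so we may take them positive.) For `d = 1` these are all the diagonal
hypersurfaces with bad reduction over `0, 1, ∞` only.

Let `V = ⊗ P ^ {n_b} (X_b)` be the tensor product of the primitive cohomology groups, of odd weight
`2 * i - 1`. Let `θ` be a character of `kˣ` of order `m * d`. We prove:

* the order of vanishing of `L(V, s)` at `s = i` is the number of the pairs `(s, e)` of a line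
  `s = (s_{bj})` of `V` and a residue `e` modulo `m * d` with `e ≡ - ∑ u_{bj} s_{bj}` modulo `m`
  such that all the residues modulo `m * d` of the tuple
  `T(s, e) = (d s_{bj}, e, -w, w - e)`, `w = d ∑ v_{bj} s_{bj}`, are different from zero, and such
  that the product of the Gauss sums of `θ ^ a`, `a ∈ T(s, e)`, times an explicit root of unity is
  `q ^ (i + r + 1)`;
* for each such pair the tuple `T(s, e)` is a Tate character of degree `m * d` (so the line is a
  line of Tate classes on a product of Fermat varieties of degree `m * d`);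
* if `m * d` divides `p ^ e + 1` for some `e`, or is a prime power or twice a prime power, or if the prime divisors of `m * d` lie in
  `{2, 3, 5}`, in `{2, 3, 7}` or in `{2, q}` for a prime `q` congruent to `7` modulo `8`, or, when
  `4` does not divide `m * d`, in `{2, 3, 11}` or in `{2, 3, 13}`, then all these characters are,
  after raising the degree, generated by the characters of Fermat surfaces and the standard
  characters of Aoki, so that the classes are algebraic (Tate, Shioda-Katsura, Aoki-Shioda);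
* if `q = Q ^ 2`, where `m * d` divides `Q + 1` and the constants lie in the field with `Q` elements,
  then all the pairs `(s, e)` with nonzero residues contribute; their number grows like a multiple
  of `d` (as soon as there is a line with `∑ v_{bj} s_{bj} ≠ 0`).

So for these degrees `m * d` the Beilinson-Bloch conjecture holds for `X`, and both sides are given by
a formula; they can be arbitrarily large in every odd dimension.
-/

set_option autoImplicit false

namespace Pool.Agent.Results.MP_0b9e0b_ag.ThreePointDiagonal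

open Polynomial Finset
open Pool.Agent.H916T (Generated SurfaceTate Standard IsTate)
open Pool.Agent.Zk8.DH (rho aps lines resid)
open Pool.Agent.Zk8.RatField (Place IsFrobenius IsLFunction IsLine)

section

variable {k : Type} [Field k] [Fintype k] {r : ℕ} {n : Fin r → ℕ}

/-- the coefficients `c t ^ u (1 - t ^ d) ^ v` -/
noncomputable def coefficient (d : ℕ) (c : ∀ b, Fin (n b + 2) → k)
    (u v : ∀ b, Fin (n b + 2) → ℕ) (b : Fin r) (j : Fin (n b + 2)) : k[X] :=
  C (c b j) * X ^ u b j * (1 - X ^ d) ^ v b j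

/-- `w = d ∑ v_{bj} s_{bj}`, a residue modulo `m * d` -/
def weight {m : ℕ} (d : ℕ) (v : ∀ b, Fin (n b + 2) → ℕ) (s : ∀ b, Fin (n b + 2) → ZMod m) :
    ZMod (m * d) := ((d * ∑ b, ∑ j, v b j * (s b j).val : ℕ) : ZMod (m * d))

/-- the tuple `T(s, e) = (d s_{bj}, e, -w, w - e)` of residues modulo `m * d` -/
def tuple {m : ℕ} (d : ℕ) (v : ∀ b, Fin (n b + 2) → ℕ) (s : ∀ b, Fin (n b + 2) → ZMod m)
    (e : ZMod (m * d)) : Multiset (ZMod (m * d)) :=
  ((Finset.univ : Finset (Σ b, Fin (n b + 2))).val.map fun x =>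
    (((d * (s x.1 x.2).val : ℕ)) : ZMod (m * d))) + {e, -weight d v s, weight d v s - e}

/-- the pairs `(s, e)`: a line `s` and a residue `e` with `e ≡ - ∑ u_{bj} s_{bj}` modulo `m`, such
that no entry of the tuple is zero -/
def IsPair {m : ℕ} (d : ℕ) (u v : ∀ b, Fin (n b + 2) → ℕ) (s : ∀ b, Fin (n b + 2) → ZMod m)
    (e : ZMod (m * d)) : Prop :=
  IsLine s ∧ ((e.val : ℕ) : ZMod m) = -∑ b, ∑ j, (u b j : ZMod m) * s b j ∧
    (0 : ZMod (m * d)) ∉ tuple d v s e

/-- the eigenvalue of Frobenius on the line `(s, e)` is `q ^ i`: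
`θ ^ (-d) (∏ c_{bj} ^ s_{bj}) θ ^ (e - w) (-1) ∏_{a ∈ T(s, e)} g(θ ^ a) = q ^ (i + r + 1)` -/
def IsRational {m : ℕ} (d : ℕ) (θ : MulChar k ℂ) (ψ : AddChar k ℂ) (i : ℕ)
    (c : ∀ b, Fin (n b + 2) → k) (v : ∀ b, Fin (n b + 2) → ℕ)
    (s : ∀ b, Fin (n b + 2) → ZMod m) (e : ZMod (m * d)) : Prop :=
  (θ ^ d)⁻¹ (∏ b, ∏ j, c b j ^ (s b j).val) * (θ ^ (e - weight d v s).val) (-1) *
    ((tuple d v s e).map fun a => gaussSum (θ ^ a.val) ψ).prod = (Fintype.card k : ℂ) ^ (i + r + 1)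

end

/-- The degrees: the divisors of the integers `p ^ e + 1`, prime powers, twice prime powers, and the
integers with all prime divisors in `{2, 3, 5}`, in `{2, 3, 7}` or in `{2, q}` for a prime `q`
congruent to `7` modulo `8`, or, if `4` does not divide the integer, in `{2, 3, 11}` or in
`{2, 3, 13}`. -/
def GoodDegree (p M : ℕ) : Prop :=
  (∃ e : ℕ, M ∣ p ^ e + 1) ∨
  (∃ ℓ a : ℕ, ℓ.Prime ∧ (M = ℓ ^ a ∨ M = 2 * ℓ ^ a)) ∨
  (∀ r : ℕ, r.Prime → r ∣ M → r = 2 ∨ r = 3 ∨ r = 5) ∨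
  (∀ r : ℕ, r.Prime → r ∣ M → r = 2 ∨ r = 3 ∨ r = 7) ∨
  (∃ q : ℕ, q.Prime ∧ q % 8 = 7 ∧ ∀ r : ℕ, r.Prime → r ∣ M → r = 2 ∨ r = q) ∨
  (¬ 4 ∣ M ∧ ((∀ r : ℕ, r.Prime → r ∣ M → r = 2 ∨ r = 3 ∨ r = 11) ∨
    ∀ r : ℕ, r.Prime → r ∣ M → r = 2 ∨ r = 3 ∨ r = 13))

theorem closure {p M : ℕ} (hp : p.Prime) (hM : 0 < M) (hpM : p.Coprime M) (h : GoodDegree p M)
    (s : Multiset (ZMod M)) (hs : IsTate p M s) (hne : s ≠ 0) :
    ∃ N : ℕ, 0 < N ∧ p.Coprime N ∧
      Generated (N * M)
        (fun t => SurfaceTate p (N * M) t ∨ ∃ q : ℕ, q.Prime ∧ q ∣ N * M ∧ Standard q (N * M) t)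
        (s.map fun a => ((N * a.val : ℕ) : ZMod (N * M))) := by
  rcases h with ⟨e, h⟩ | ⟨ℓ, a, hℓ, h⟩ | h | h | ⟨q, hq, hq7, h⟩ | ⟨h4, h | h⟩
  · by_cases h4 : 4 ≤ M
    · have : NeZero M := ⟨hM.ne'⟩
      exact Zk8.FK.super_closure h4 hpM h s hs.1 hs.2.2.1 hs.2.1
    · have h123 : M = 1 ∨ M = 2 ∨ M = 3 := by omega
      rcases h123 with h1 | h1 | h1
      · exact Zk8.DT.prime_power hp Nat.prime_two (Or.inl (a := M = 2 ^ 0) (by rw [h1]; rfl)) hpM s hs hne
      · exact Zk8.DT.prime_power hp Nat.prime_two (Or.inl (a := M = 2 ^ 1) (by rw [h1]; rfl)) hpM s hs hne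
      · exact Zk8.DT.prime_power hp Nat.prime_three (Or.inl (a := M = 3 ^ 1) (by rw [h1]; rfl)) hpM s hs hne
  · exact Zk8.DT.prime_power hp hℓ h hpM s hs hne
  · exact MP_021685_ag.FermatEveryCharacteristic.result p M hp hM hpM (Or.inl h) s hs hne
  · exact MP_021685_ag.FermatEveryCharacteristic.result p M hp hM hpM (Or.inr (Or.inl h)) s hs hne
  · exact MP_021685_ag.FermatEveryCharacteristic.result p M hp hM hpM
      (Or.inr (Or.inr (Or.inl ⟨q, hq, hq7, fun r hr hrm => (h r hr hrm).imp id Or.inl⟩))) s hs hne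
  · exact MP_021685_ag.FermatEveryCharacteristic.result p M hp hM hpM
      (Or.inr (Or.inr (Or.inr ⟨h4, Or.inl h⟩))) s hs hne
  · exact MP_021685_ag.FermatEveryCharacteristic.result p M hp hM hpM
      (Or.inr (Or.inr (Or.inr ⟨h4, Or.inr h⟩))) s hs hne

open scoped Classical in
theorem result (p m d : ℕ) [Fact p.Prime] [NeZero m] [NeZero d] (k : Type) [Field k] [Fintype k]
    [CharP k p] (hmd : m * d ∣ Fintype.card k - 1) (θ : MulChar k ℂ) (hθ : orderOf θ = m * d)
    (ψ : AddChar k ℂ) (hψ : ψ ≠ 1) (r : ℕ) (n : Fin r → ℕ) (i : ℕ) (hi : ∑ b, n b + 1 = 2 * i)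
    (c : ∀ b, Fin (n b + 2) → k) (hc : ∀ b j, c b j ≠ 0)
    (u v : ∀ b, Fin (n b + 2) → ℕ) (hu : ∀ b j, 0 < u b j) (hv : ∀ b j, 0 < v b j)
    (A : Place k → Multiset ℂ) (hA : IsFrobenius m i (coefficient d c u v) A) :
    ∃ Λ : ℂ → ℂ, IsLFunction i A Λ ∧
      meromorphicOrderAt Λ i =
        ((Nat.card {x : (∀ b, Fin (n b + 2) → ZMod m) × ZMod (m * d) //
          IsPair d u v x.1 x.2 ∧ IsRational d θ ψ i c v x.1 x.2} : ℕ) : ℤ) ∧
      (∀ (s : ∀ b, Fin (n b + 2) → ZMod m) (e : ZMod (m * d)),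
        IsPair d u v s e → IsRational d θ ψ i c v s e →
          IsTate p (m * d) (tuple d v s e) ∧
          (GoodDegree p (m * d) → ∃ N : ℕ, 0 < N ∧ p.Coprime N ∧
            Generated (N * (m * d))
              (fun t => SurfaceTate p (N * (m * d)) t ∨
                ∃ q : ℕ, q.Prime ∧ q ∣ N * (m * d) ∧ Standard q (N * (m * d)) t)
              ((tuple d v s e).map fun a => ((N * a.val : ℕ) : ZMod (N * (m * d)))))) ∧
      ∀ f : ℕ, 0 < f → Fintype.card k = (p ^ f) ^ 2 → m * d ∣ p ^ f + 1 →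
        (∀ b j, c b j ^ p ^ f = c b j) →
        ∀ (s : ∀ b, Fin (n b + 2) → ZMod m) (e : ZMod (m * d)),
          IsPair d u v s e → IsRational d θ ψ i c v s e := by
  classical
  have hmd0 : NeZero (m * d) := ⟨mul_ne_zero (NeZero.ne m) (NeZero.ne d)⟩
  have hd0 : 0 < d := Nat.pos_of_ne_zero (NeZero.ne d)
  have hr1 : 1 ≤ r := by
    rcases Nat.eq_zero_or_pos r with h0 | h0
    · subst h0
      simp at hi
      omega
    · exact h0
  have hχo : orderOf (θ ^ d) = m := by
    rw [orderOf_pow_of_dvd hd0.ne' (by rw [hθ]; exact dvd_mul_left _ _), hθ,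
      Nat.mul_div_cancel _ hd0]
  have hmk : m ∣ Fintype.card k - 1 := (dvd_mul_right m d).trans hmd
  have hlines : ∀ s : ∀ b, Fin (n b + 2) → ZMod m, s ∈ lines m n ↔ IsLine s := fun s =>
    Zk8.DH.mem_lines
  have ha : ∀ b j, coefficient d c u v b j ≠ 0 := fun b j => Zk8.DT.co_ne_zero (d := d) hc u v b j
  have hG : ∀ s : ∀ b, Fin (n b + 2) → ZMod m, ∃ G : ℂ → ℂ, s ∈ lines m n →
      (∀ x : ℂ, ‖x‖ * Fintype.card k < 1 →
        HasProd (fun w : Zk8.DH.FPlace k =>
          (1 - Zk8.DH.lamA (θ ^ d)⁻¹ (aps (Zk8.DT.co d c u v) s) w.1 * x ^ w.1.natDegree)⁻¹) (G x)) ∧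
      (∀ z : ℂ, MeromorphicAt
        (fun z : ℂ => G (rho (θ ^ d) ψ s * (Fintype.card k : ℂ) ^ (-z))) z) ∧
      meromorphicOrderAt (fun z : ℂ => G (rho (θ ^ d) ψ s * (Fintype.card k : ℂ) ^ (-z))) i =
        (((Zk8.DT.okl (d := d) θ ψ i c u v s).card : ℕ) : ℤ) := by
    intro s
    by_cases hs : s ∈ lines m n
    · obtain ⟨G, h⟩ := Zk8.DT.line_G hmd θ hθ hψ hi hr1 hc hu hv hs
      exact ⟨G, fun _ => h⟩
    · exact ⟨0, fun h => absurd h hs⟩
  choose G hG' using hG
  obtain ⟨Λ, hΛ1, hΛ2, hΛ3⟩ := Zk8.DH.assemble hmk (θ ^ d) hχo hψ hi (coefficient d c u v) ha A hA.1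
      (by
        intro α hα
        have h1 := hA.2 none (by simp) α hα
        simpa [Zk8.RatField.absNorm] using h1)
      (by
        intro v hv α hα
        have h1 := hA.2 (some v) (by
          intro P hP
          cases hP
          exact hv) α hα
        simpa [Zk8.RatField.absNorm] using h1)
      G (fun s => (Zk8.DT.okl (d := d) θ ψ i c u v s).card)
      (fun s hs => (hG' s hs).1) (fun s hs => (hG' s hs).2.1)
      (fun s hs => (hG' s hs).2.2)
  refine ⟨Λ, ⟨hΛ1, hΛ2⟩, ?_, ?_, ?_⟩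
  · rw [hΛ3]
    congr 2
    rw [Nat.card_eq_fintype_card, Fintype.card_subtype, Finset.card_filter, Fintype.sum_prod_type,
      ← Finset.sum_subset (Finset.subset_univ (lines m n))]
    · refine Finset.sum_congr rfl fun s hs => ?_
      rw [Zk8.DT.okl_card hθ hψ i c u v hs, Zk8.DT.prs, Finset.card_filter]
      refine Finset.sum_congr rfl fun e _ => ?_
      have h1 : (((e.val : ℕ) : ZMod m) = -∑ b, ∑ j, (u b j : ZMod m) * s b j ∧
          (0 : ZMod (m * d)) ∉ Zk8.DT.tup d v s e ∧ Zk8.DT.Eqn (d := d) θ ψ i c v s e) ↔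
          (IsPair d u v s e ∧ IsRational d θ ψ i c v s e) := by
        constructor
        · rintro ⟨h1, h2, h3⟩
          exact ⟨⟨(hlines s).1 hs, h1, h2⟩, h3⟩
        · rintro ⟨⟨_, h1, h2⟩, h3⟩
          exact ⟨h1, h2, h3⟩
      by_cases h2 : IsPair d u v s e ∧ IsRational d θ ψ i c v s e
      · rw [if_pos h2, if_pos (h1.2 h2)]
      · rw [if_neg h2, if_neg (fun h => h2 (h1.1 h))]
    · intro s _ hs
      refine Finset.sum_eq_zero fun e _ => ?_
      rw [if_neg]
      rintro ⟨⟨h1, _⟩, _⟩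
      exact hs ((hlines s).2 h1)
  · intro s e hse hrat
    have hs := (hlines s).2 hse.1
    have hT : IsTate p (m * d) (tuple d v s e) :=
      Zk8.DT.isTate_tup hmd hθ hψ hi hc v hs hse.2.2 hrat
    refine ⟨hT, fun hgd => ?_⟩
    have hp : p.Prime := Fact.out
    have hcop : p.Coprime (m * d) := Zk8.DH.coprime_of_card (k := k) hmd
    refine closure hp (Nat.pos_of_ne_zero (NeZero.ne _)) hcop hgd _ hT ?_
    intro h
    have h1 := Zk8.DT.tup_card (d := d) v s e
    have h2 : Zk8.DT.tup d v s e = 0 := h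
    rw [h2, Multiset.card_zero] at h1
    omega
  · intro f hf hk hQ hcQ s e hse
    exact Zk8.DT.eqn_of_pure hf hk hQ hθ hψ hi hc hcQ v ((hlines s).2 hse.1) hse.2.2

end Pool.Agent.Results.MP_0b9e0b_ag.ThreePointDiagonal
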