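import Pool.Agent.Zk8.DW.Prop
import Pool.Agent.Zk8.DW.Lower
import Pool.Agent.Results.MP_0b9e0b_ag.ThreePointDiagonal

/-!
# The Beilinson-Bloch conjecture for Dwork families of hypersurfaces over `k(t)`

Let `k` be a finite field with `q` elements and of characteristic `p`. Let `Y` be the hypersurface
of degree `m` and dimension `n` over the rational function field `k(t)`

  `Y : ∑ⱼ cⱼ t ^ aⱼ xⱼ ^ m + c₀ t ^ a₀ ∏ⱼ xⱼ ^ wⱼ = 0`,   `∑ wⱼ = m`,   `cⱼ, c₀ ∈ kˣ`,

with any exponents `wⱼ`, `aⱼ`, `a₀` such that `D = m * a₀ - ∑ wⱼ aⱼ` is not zero. These are the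
families of Dwork and Katz: for `m = n + 2`, `wⱼ = 1`, `aⱼ = 0` the pencil of Calabi-Yau varieties
`∑ xⱼ ^ m + t ^ a₀ ∏ xⱼ = 0`. They are not isotrivial in general; the monodromy group is infinite.
Let `m * d ∣ q - 1` for a positive multiple `d` of `D`. More generally we treat `X = Y × ∏ X_b` for
diagonal hypersurfaces `X_b : ∑ⱼ c'_{bj} t ^ u_{bj} xⱼ ^ m = 0` of dimensions `n_b`
(`1 ≤ b ≤ r`, `r ≥ 0`), and `V`, the tensor product of the primitive cohomology groups of `Y` and of
the `X_b`, of odd weight `n + ∑ n_b = 2 * i - 1`. For `r = 0` and `n` odd it is the whole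
`H ^ n (Y)`, and `i = (n + 1) / 2`.

Frobenius data (`IsFrobenius`). At a place `v` other than `0` and `∞` let `A v` be the eigenvalues
of Frobenius on the inertia invariants of `V`, and `Z v` those on the part of weight `2 * i` of the
cohomology of the fibre over `v`, which does not come from `V`: for `r = 0` the fibre `Y_v` has
isolated singularities, `H ^ {n + 1} (Y_v)` is pure of weight `n + 1`, and it is the sum of the
power of the hyperplane class (`n` odd) and of the part counted by `Z v`; the total space is regular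
at the singular points, so that `H ^ n (Y_v)` is the space of invariants (Deligne). If `Y_v` is smooth
then `Z v` is empty. The numbers in `A v` and `Z v` are determined by the numbers of points of the
fibre over all extensions of the residue field. At `0` and `∞` we allow any finite number of
numbers of weight at most `2 * i - 1`.

We prove that `L(V, s)` has a meromorphic continuation, and that its order of vanishing at `s = i` is

  `N - ∑ᵥ (the number of the ε in Z v with ε = q_v ^ i)`,

where `N` is the number of the lines `(s', s, e)` whose Gauss sums satisfy an explicit equation: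
`s' = (s'_{bj})` are nonzero residues modulo `m` with sum zero in each block, `s = (sⱼ)` and `e` are
residues modulo `m * d` with `m sⱼ + wⱼ e = 0`, `e + ∑ sⱼ = 0` and
`a₀ e + ∑ aⱼ sⱼ + d ∑ u_{bj} s'_{bj} = 0`; either all of them are not zero, or `e = 0` and exactly one
`sⱼ` is zero, with `wⱼ ≠ 0` (these are the primitive classes of the hyperplane section `xⱼ = 0`, a
constant family of diagonal hypersurfaces); and the product of the Gauss sums of the nonzero entries
of `(d s'_{bj}, sⱼ, e)`, times a root of unity given by the coefficients, is `q ^ (half the number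
of the entries)`.

In other words, `N` is the number of the Tate classes of the total space which come from these
characters, and the sum over the singular fibres is the number of those supported in fibres; this
is the formula of Shioda and Tate in higher dimension. (Example: for the Dwork pencil with
`n = 2 * i - 1`, `m = n + 2`, the latter are the classes of the subvarieties
`e₁ = ... = e_i = 0` of the singular fibres, and of their translates under the diagonal
automorphisms, where `e₁, e₂, ...` are the elementary symmetric functions. If `p` divides `wⱼ > 0`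
for some `j` then there are no singular fibres outside of `0` and `∞`.)

Moreover:

* if `p` divides `wⱼ > 0` for some `j` then there are no singular fibres outside of `0` and `∞`, all the
  `Z v` are empty, and the order of vanishing is exactly `N`;
* the entries of each such line form a Tate character of degree `m * d`: the line is a line of Tate
  classes on a product of Fermat varieties of degree `m * d`;
* if `m * d` divides `p ^ e + 1` for some `e`, or is a prime power, twice a prime power, or has all its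
  prime divisors in `{2, 3, 5}`, in `{2, 3, 7}` or in `{2, ℓ}` for a prime `ℓ` congruent to `7` modulo
  `8`, or, when `4` does not divide it, in `{2, 3, 11}` or in `{2, 3, 13}`, then these characters are,
  after raising the degree, generated by the characters of Fermat surfaces and the standard
  characters of Aoki; so the classes are algebraic (Tate, Shioda-Katsura, Aoki-Shioda);
* if `q = Q ^ 2`, `m * d` divides `Q + 1` and the coefficients lie in the field with `Q` elements
  then all the lines are counted in `N`; their number grows linearly with `d`. For the families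
  `∑ cⱼ xⱼ ^ m + c₀ t ^ a₀ ∏ xⱼ ^ wⱼ = 0`, `p ∣ wⱼ > 0` for some `j`, `a₀` prime to all the `wⱼ`,
  `d = m * a₀`, the order of vanishing is at least `(a₀ - 1) * m ^ (n + 1)`.

So for these degrees the conjecture of Beilinson and Bloch holds for the varieties `X`, which are not
isotrivial, of any odd dimension (or products), and the order is not bounded. (If all the `wⱼ` are
positive, then the number of the pairs `(T, y)`, `T ∈ E`, `y ∈ E ^ (n + 2)`, on the family
`∑ cⱼ yⱼ ^ m + c₀ T ∏ yⱼ ^ wⱼ = 0` over a finite field `E` is `(|E| - 1) ^ (n + 2)` plus a multiple of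
`|E|`, and so not divisible by `p`. So some fibres `Y_T` have `|Y_T(E)|` not congruent to `1` modulo
`p`, whereas the fibre at `T = 0` is supersingular for `m ∣ Q + 1`: the family is not isotrivial.)
-/

set_option autoImplicit false

namespace Pool.Agent.Results.MP_0b9e0b_ag.DworkFamilies

open Polynomial Finset
open Pool.Agent.H916T (Generated SurfaceTate Standard IsTate)
open Pool.Agent.Zk8.RatField (Place absNorm primTrace IsLFunction)
open Pool.Agent.Results.MP_0b9e0b_ag.ThreePointDiagonal (GoodDegree)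

/-- A finite place of `k(t)`: a monic irreducible polynomial. -/
abbrev FinitePlace (k : Type) [Field k] : Type := {P : k[X] // P.Monic ∧ Irreducible P}

/-- The solutions, not zero, of `∑ Cⱼ yⱼ ^ m + C₀ ∏ yⱼ ^ wⱼ = 0` in the field `E`. -/
def solutions (m : ℕ) {N : ℕ} (w : Fin N → ℕ) {E : Type} [Field E] (C : Fin N → E) (C₀ : E) :
    Set (Fin N → E) :=
  {y | y ≠ 0 ∧ ∑ j, C j * y j ^ m + C₀ * ∏ j, y j ^ w j = 0}

/-- `(-1) ^ n * (#Y(E) - ∑_{l ≤ n} |E| ^ l)` for the hypersurface `Y` of dimension `n` over the finite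
field `E` with the equation `∑ Cⱼ yⱼ ^ m + C₀ ∏ yⱼ ^ wⱼ = 0`. -/
noncomputable def trace (m n : ℕ) (w : Fin (n + 2) → ℕ) {E : Type} [Field E] [Fintype E]
    (C : Fin (n + 2) → E) (C₀ : E) : ℂ :=
  (-1) ^ n * (((solutions m w C C₀).ncard : ℂ) / (Fintype.card E - 1) -
    ∑ l ∈ range (n + 1), (Fintype.card E : ℂ) ^ l)

section

variable {k : Type} [Field k] [Fintype k] {n : ℕ} {r : ℕ} {n' : Fin r → ℕ}

/-- The fibre of `Y` over the place `P` has a singular point `y`, defined over a finite field `E`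
which contains the residue field: all the partial derivatives vanish at `y`. -/
def IsSingular (m : ℕ) (w a : Fin (n + 2) → ℕ) (a₀ : ℕ) (c : Fin (n + 2) → k) (c₀ : k)
    (P : k[X]) : Prop :=
  ∃ (E : Type) (_ : Field E) (_ : Fintype E) (_ : Algebra k E) (x : E) (y : Fin (n + 2) → E),
    aeval x P = 0 ∧ y ≠ 0 ∧ ∀ j,
      (m : E) * (algebraMap k E (c j) * x ^ a j) * y j ^ (m - 1) +
        (algebraMap k E c₀ * x ^ a₀) *
          ((w j : E) * y j ^ (w j - 1) * ∏ l ∈ univ.erase j, y l ^ w l) = 0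

/-- The Frobenius data of the family, see above: for all places `P` of `k(t)` except `0` and
`∞`, all finite fields `E` containing the residue field and all roots `x` of `P` in `E` the product of
the traces of the fibres over `x` is the sum of the powers of the numbers in `A P` minus that of the
powers of the numbers in `Z P`; `Z P` is empty unless `P` is not `0` and the fibre is singular; the
numbers in `Z P` have weight `2 * i`; for all places (also `0` and `∞`) the numbers in `A` have weight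
at most `2 * i - 1`; and the number of elements of `A` is bounded. -/
def IsFrobenius (m i : ℕ) (w a : Fin (n + 2) → ℕ) (a₀ : ℕ) (c : Fin (n + 2) → k) (c₀ : k)
    (c' : ∀ b, Fin (n' b + 2) → k) (u : ∀ b, Fin (n' b + 2) → ℕ)
    (A : Place k → Multiset ℂ) (Z : FinitePlace k → Multiset ℂ) : Prop :=
  (∀ P : FinitePlace k, P.1 ≠ X →
    ∀ (E : Type) [Field E] [Fintype E] [Algebra k E] (x : E), aeval x P.1 = 0 →
      trace m n w (fun j => algebraMap k E (c j) * x ^ a j) (algebraMap k E c₀ * x ^ a₀) *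
        ∏ b, primTrace m (n' b) (fun j => algebraMap k E (c' b j) * x ^ u b j) =
      ((A (some P)).map fun α => α ^ (Module.finrank k E / P.1.natDegree)).sum -
        ((Z P).map fun ε => ε ^ (Module.finrank k E / P.1.natDegree)).sum) ∧
  (∀ P : FinitePlace k, Z P ≠ 0 → P.1 ≠ X ∧ IsSingular m w a a₀ c c₀ P.1) ∧
  (∀ P : FinitePlace k, ∀ ε ∈ Z P, ‖ε‖ ^ 2 = (absNorm (some P) : ℝ) ^ (2 * i)) ∧
  (∀ v : Place k, ∀ α ∈ A v, ‖α‖ ^ 2 * absNorm v ≤ (absNorm v : ℝ) ^ (2 * i)) ∧
  ∃ R : ℕ, ∀ v : Place k, Multiset.card (A v) ≤ R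

/-- the lines `(s', s, e)`, see above -/
def IsLine {m d : ℕ} (w a : Fin (n + 2) → ℕ) (a₀ : ℕ) (u : ∀ b, Fin (n' b + 2) → ℕ)
    (s' : ∀ b, Fin (n' b + 2) → ZMod m) (s : Fin (n + 2) → ZMod (m * d)) (e : ZMod (m * d)) :
    Prop :=
  (∀ b, (∀ j, s' b j ≠ 0) ∧ ∑ j, s' b j = 0) ∧
  (∀ j, (m : ZMod (m * d)) * s j + w j * e = 0 ∧ (w j = 0 → s j ≠ 0)) ∧
  e + ∑ j, s j = 0 ∧
  a₀ * e + ∑ j, a j * s j + ((d * ∑ b, ∑ j, u b j * (s' b j).val : ℕ) : ZMod (m * d)) = 0 ∧
  (((∀ j, s j ≠ 0) ∧ e ≠ 0) ∨ (e = 0 ∧ ∃! j, s j = 0))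

open scoped Classical in
/-- the multiset of the nonzero residues modulo `m * d` among `d s'_{bj}`, `sⱼ`, `e` -/
noncomputable def entries {m d : ℕ} (s' : ∀ b, Fin (n' b + 2) → ZMod m)
    (s : Fin (n + 2) → ZMod (m * d)) (e : ZMod (m * d)) : Multiset (ZMod (m * d)) :=
  (((Finset.univ : Finset (Σ b, Fin (n' b + 2))).val.map fun x =>
    (((d * (s' x.1 x.2).val : ℕ)) : ZMod (m * d))) + (Finset.univ.val.map s + {e})).filter
      fun a => a ≠ 0

/-- the eigenvalue of Frobenius on the line is `q ^ i`: the product of the Gauss sums of `θ ^ a`,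
`a ∈ entries`, times `θ ^ (-d) (∏ c'_{bj} ^ s'_{bj}) ∏ⱼ θ ^ (-sⱼ) (cⱼ) θ ^ (-e) (c₀)`, is
`q ^ (|entries| / 2)` -/
def IsRational {m d : ℕ} (θ : MulChar k ℂ) (ψ : AddChar k ℂ) (c : Fin (n + 2) → k) (c₀ : k)
    (c' : ∀ b, Fin (n' b + 2) → k) (s' : ∀ b, Fin (n' b + 2) → ZMod m)
    (s : Fin (n + 2) → ZMod (m * d)) (e : ZMod (m * d)) : Prop :=
  (θ ^ d)⁻¹ (∏ b, ∏ j, c' b j ^ (s' b j).val) *
      ((∏ j, (θ ^ (s j).val)⁻¹ (c j)) * (θ ^ e.val)⁻¹ c₀) *
    ((entries s' s e).map fun a => gaussSum (θ ^ a.val) ψ).prod =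
    (Fintype.card k : ℂ) ^ (Multiset.card (entries s' s e) / 2)

/-- the number `N` of the rational lines -/
noncomputable def numberOfLines (m d : ℕ) (θ : MulChar k ℂ) (ψ : AddChar k ℂ)
    (w a : Fin (n + 2) → ℕ) (a₀ : ℕ) (u : ∀ b, Fin (n' b + 2) → ℕ) (c : Fin (n + 2) → k) (c₀ : k)
    (c' : ∀ b, Fin (n' b + 2) → k) : ℕ :=
  Nat.card {x : (∀ b, Fin (n' b + 2) → ZMod m) × (Fin (n + 2) → ZMod (m * d)) × ZMod (m * d) //
    IsLine w a a₀ u x.1 x.2.1 x.2.2 ∧ IsRational θ ψ c c₀ c' x.1 x.2.1 x.2.2}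

/-- `k` has `Q ^ 2` elements, where `Q = p ^ f` and `M` divides `Q + 1`, and the coefficients lie in
the field with `Q` elements -/
def IsSupersingular (p f M : ℕ) (c : Fin (n + 2) → k) (c₀ : k) (c' : ∀ b, Fin (n' b + 2) → k) :
    Prop :=
  0 < f ∧ Fintype.card k = (p ^ f) ^ 2 ∧ M ∣ p ^ f + 1 ∧ (∀ j, c j ^ p ^ f = c j) ∧
    c₀ ^ p ^ f = c₀ ∧ ∀ b j, c' b j ^ p ^ f = c' b j

end

open scoped Classical in
theorem result (p m d : ℕ) [Fact p.Prime] [NeZero m] [NeZero d] (k : Type) [Field k] [Fintype k]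
    [CharP k p] (hmd : m * d ∣ Fintype.card k - 1) (θ : MulChar k ℂ) (hθ : orderOf θ = m * d)
    (ψ : AddChar k ℂ) (hψ : ψ ≠ 1) (n : ℕ) (w a : Fin (n + 2) → ℕ) (a₀ : ℕ)
    (hw : ∑ j, w j = m) (hdet : ((m : ℤ) * a₀ - ∑ j, (w j : ℤ) * a j) ∣ (d : ℤ))
    (c : Fin (n + 2) → k) (c₀ : k) (hc : ∀ j, c j ≠ 0) (hc₀ : c₀ ≠ 0)
    (r : ℕ) (n' : Fin r → ℕ) (c' : ∀ b, Fin (n' b + 2) → k) (hc' : ∀ b j, c' b j ≠ 0)
    (u : ∀ b, Fin (n' b + 2) → ℕ) (i : ℕ) (hi : n + ∑ b, n' b + 1 = 2 * i)
    (A : Place k → Multiset ℂ) (Z : FinitePlace k → Multiset ℂ)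
    (hA : IsFrobenius m i w a a₀ c c₀ c' u A Z) :
    ∃ Λ : ℂ → ℂ, IsLFunction i A Λ ∧
      meromorphicOrderAt Λ i =
        (((numberOfLines m d θ ψ w a a₀ u c c₀ c' : ℤ) -
          ∑ᶠ P : FinitePlace k,
            ((Z P).count (((Fintype.card k : ℂ) ^ i) ^ P.1.natDegree) : ℤ) : ℤ) : WithTop ℤ) ∧
      ((∃ j, 0 < w j ∧ p ∣ w j) → ∀ P, Z P = 0) ∧
      (∀ (s' : ∀ b, Fin (n' b + 2) → ZMod m) (s : Fin (n + 2) → ZMod (m * d)) (e : ZMod (m * d)),
        IsLine w a a₀ u s' s e → IsRational θ ψ c c₀ c' s' s e →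
          IsTate p (m * d) (entries s' s e) ∧
          (GoodDegree p (m * d) → ∃ N : ℕ, 0 < N ∧ p.Coprime N ∧
            Generated (N * (m * d))
              (fun t => SurfaceTate p (N * (m * d)) t ∨
                ∃ ℓ : ℕ, ℓ.Prime ∧ ℓ ∣ N * (m * d) ∧ Standard ℓ (N * (m * d)) t)
              ((entries s' s e).map fun a => ((N * a.val : ℕ) : ZMod (N * (m * d)))))) ∧
      ∀ f : ℕ, IsSupersingular p f (m * d) c c₀ c' →
        (∀ (s' : ∀ b, Fin (n' b + 2) → ZMod m) (s : Fin (n + 2) → ZMod (m * d)) (e : ZMod (m * d)),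
          IsLine w a a₀ u s' s e → IsRational θ ψ c c₀ c' s' s e) ∧
        (r = 0 → (∀ j, a j = 0) → d = m * a₀ → (∀ j, a₀.Coprime (w j)) →
          (∃ j, 0 < w j ∧ p ∣ w j) →
          (((a₀ - 1) * m ^ (n + 1) : ℕ) : ℤ) ≤ meromorphicOrderAt Λ i) := by
  have hmd0 : NeZero (m * d) := ⟨mul_ne_zero (NeZero.ne m) (NeZero.ne d)⟩
  have hp : p.Prime := Fact.out
  have hcop : p.Coprime (m * d) := Zk8.DH.coprime_of_card (k := k) hmd
  obtain ⟨hfib, hZs, hZn, hAn, R, hR⟩ := hA
  -- the singular fibres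
  have hmk : (m : k) ≠ 0 := by
    intro h
    rw [CharP.cast_eq_zero_iff k p] at h
    have h1 : p ∣ m * d := h.trans (dvd_mul_right m d)
    exact hp.one_lt.ne' (Nat.Coprime.eq_one_of_dvd hcop h1)
  have hne : ∑ j, w j * a j ≠ m * a₀ := by
    intro h
    have h1 : (m : ℤ) * a₀ - ∑ j, (w j : ℤ) * a j = 0 := by
      have h2 : ((∑ j, w j * a j : ℕ) : ℤ) = ((m * a₀ : ℕ) : ℤ) := by rw [h]
      push_cast at h2
      rw [h2, sub_self]
    rw [h1, zero_dvd_iff] at hdet
    exact NeZero.ne d (by exact_mod_cast hdet)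
  have hfin := Zk8.DW.sing_finite (c := c) hmk hw hne hc c₀
  set S := hfin.toFinset with hS
  have hSm : ∀ v, Z v ≠ 0 → v ∈ S := by
    intro v hv
    rw [hS, Set.Finite.mem_toFinset]
    exact hZs v hv
  have hlines : ∀ s' : ∀ b, Fin (n' b + 2) → ZMod m, s' ∈ Zk8.DH.lines m n' ↔
      ∀ b, (∀ j, s' b j ≠ 0) ∧ ∑ j, s' b j = 0 := fun s' => Zk8.DH.mem_lines
  obtain ⟨Λ, hΛ1, hΛ2, hΛ3⟩ := Zk8.DW.core hmd hθ hψ (by rw [hw]; exact NeZero.ne m) hdet hc hc₀ hc' u
    hi A Z hfib
    (by
      intro v α hα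
      have h1 := hAn v α hα
      have h2 : (absNorm v : ℝ) = (Fintype.card k : ℝ) ^ Zk8.DH.pdeg v := by
        unfold absNorm Zk8.DH.pdeg
        push_cast
        rfl
      rw [h2] at h1
      exact h1)
    R (fun v => hR (some v))
    (by
      intro v hv
      by_contra h
      exact (hZs v h).1 hv)
    (by
      intro v ε hε
      have h1 := hZn v ε hε
      have h2 : (absNorm (some v) : ℝ) = (Fintype.card k : ℝ) ^ v.1.natDegree := by
        unfold absNorm
        push_cast
        rfl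
      rw [h2] at h1
      exact h1)
    S hSm
  have hZ0 : (∃ j, 0 < w j ∧ p ∣ w j) → ∀ P, Z P = 0 := by
    rintro ⟨j, hj, hpj⟩ P
    by_contra hP
    obtain ⟨hPX, E, _, _, _, x, y, hx, hy, h⟩ := hZs P hP
    have hcE : CharP E p := charP_of_injective_algebraMap (algebraMap k E).injective p
    have hmE : (m : E) ≠ 0 := by
      rw [← map_natCast (algebraMap k E)]
      exact (_root_.map_ne_zero _).2 hmk
    have hx0 : x ≠ 0 := by
      intro hx0
      apply hPX
      have h1 : X ∣ P.1 := by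
        rw [X_dvd_iff]
        rw [hx0, Polynomial.aeval_def, Polynomial.eval₂_at_zero] at hx
        exact (map_eq_zero _).1 hx
      exact (Polynomial.eq_of_monic_of_associated Polynomial.monic_X P.2.1
        ((Polynomial.irreducible_X.associated_of_dvd P.2.2 h1))).symm
    refine Zk8.DW.no_sing hmE (C := fun j => algebraMap k E (c j) * x ^ a j)
      (fun j => mul_ne_zero ((_root_.map_ne_zero _).2 (hc j)) (pow_ne_zero _ hx0))
      (algebraMap k E c₀ * x ^ a₀) j hj ((CharP.cast_eq_zero_iff E p _).2 hpj) y hy h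
  have horder : meromorphicOrderAt Λ i =
        (((numberOfLines m d θ ψ w a a₀ u c c₀ c' : ℤ) -
          ∑ᶠ P : FinitePlace k,
            ((Z P).count (((Fintype.card k : ℂ) ^ i) ^ P.1.natDegree) : ℤ) : ℤ) : WithTop ℤ) := by
    rw [hΛ3]
    congr 2
    · -- the number of lines
      rw [numberOfLines, Nat.card_eq_fintype_card, Fintype.card_subtype, Finset.card_filter,
        Fintype.sum_prod_type, ← Finset.sum_subset (Finset.subset_univ (Zk8.DH.lines m n'))]
      · refine congrArg (Nat.cast : ℕ → ℤ) ?_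
        refine Finset.sum_congr rfl fun s' hs' => ?_
        rw [Zk8.DW.card_lines hθ hψ hi hc hc₀ hc' w a a₀ (Zk8.DT.Wt d u s') hs', ← Finset.card_filter]
        congr 1
        ext x
        simp only [mem_filter, mem_univ, true_and, Zk8.DW.mem_T2]
        constructor
        · rintro ⟨⟨h1, h2, h3⟩, h4, h5⟩
          exact ⟨⟨(hlines s').1 hs', h1, h2, h3, h4⟩, h5⟩
        · rintro ⟨⟨_, h1, h2, h3, h4⟩, h5⟩
          exact ⟨⟨h1, h2, h3⟩, h4, h5⟩
      · intro s' _ hs'
        refine Finset.sum_eq_zero fun x _ => ?_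
        rw [if_neg]
        rintro ⟨⟨h1, _⟩, _⟩
        exact hs' ((hlines s').2 h1)
    · -- the singular fibres
      rw [finsum_eq_sum_of_support_subset (s := S)]
      · push_cast
        rfl
      · intro v hv
        apply hSm
        intro h
        apply hv
        simp [h]
  have hpure : ∀ f : ℕ, IsSupersingular p f (m * d) c c₀ c' →
        ∀ (s' : ∀ b, Fin (n' b + 2) → ZMod m) (s : Fin (n + 2) → ZMod (m * d)) (e : ZMod (m * d)),
          IsLine w a a₀ u s' s e → IsRational θ ψ c c₀ c' s' s e := by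
    intro f hsup s' s e hl
    obtain ⟨hf, hk, hQ, hcQ, hc0Q, hc'Q⟩ := hsup
    exact Zk8.DW.rat_of_pure hf hk hQ hθ hψ hi hc hc₀ hc' hcQ hc0Q hc'Q ((hlines s').2 hl.1)
      hl.2.2.1 hl.2.2.2.2
  refine ⟨Λ, ⟨hΛ1, hΛ2⟩, horder, hZ0, ?_, fun f hsup => ⟨hpure f hsup, ?_⟩⟩
  · intro s' s e hl hrat
    have hs' := (hlines s').2 hl.1
    have hT : IsTate p (m * d) (entries s' s e) :=
      Zk8.DW.isTate_entr hmd hθ hψ hi hc hc₀ hc' hs' hl.2.2.1 hl.2.2.2.2 hrat
    refine ⟨hT, fun hgd => ?_⟩
    refine ThreePointDiagonal.closure hp (Nat.pos_of_ne_zero (NeZero.ne _)) hcop hgd _ hT ?_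
    intro h
    have h1 := Zk8.DW.kind_card hi hs' hl.2.2.2.2
    have h2 : Zk8.DW.entr s' s e = 0 := h
    rw [h2, Multiset.card_zero] at h1
    split_ifs at h1
    omega
  · intro hr ha hd hcopw hj
    subst hr
    have hd0 : 0 < d := Nat.pos_of_ne_zero (NeZero.ne d)
    have ha0 : 0 < a₀ := by
      rcases Nat.eq_zero_or_pos a₀ with h | h
      · rw [h, mul_zero] at hd
        omega
      · exact h
    have hle : (a₀ - 1) * m ^ (n + 1) ≤ numberOfLines m d θ ψ w a a₀ u c c₀ c' := by
      let s₀ : ∀ b : Fin 0, Fin (n' b + 2) → ZMod m := fun b => b.elim0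
      have h1 := Zk8.DW.lower (m := m) hd ha0 hw hcopw
        (fun x => IsLine w a a₀ u s₀ x.1 x.2 ∧ IsRational θ ψ c c₀ c' s₀ x.1 x.2)
        (by
          intro x h1 h2 h3 h4 h5
          have hline : IsLine w a a₀ u s₀ x.1 x.2 := by
            refine ⟨fun b => b.elim0, fun j => ⟨h1 j, fun _ => h4 j⟩, h2, ?_, Or.inl ⟨h4, h5⟩⟩
            simp only [ha, Nat.cast_zero, zero_mul, Finset.sum_const_zero, add_zero,
              Finset.univ_eq_empty, Finset.sum_empty, mul_zero]
            exact h3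
          exact ⟨hline, hpure f hsup s₀ x.1 x.2 hline⟩)
      refine h1.trans ?_
      unfold numberOfLines
      refine Nat.card_le_card_of_injective (fun x => ⟨(s₀, x.1.1, x.1.2), x.2⟩) ?_
      intro x y hxy
      have h2 : (s₀, x.1.1, x.1.2) = (s₀, y.1.1, y.1.2) := congrArg Subtype.val hxy
      have h3 := congrArg Prod.snd h2
      exact Subtype.ext h3
    rw [horder]
    have h0 : (∑ᶠ P : FinitePlace k,
            ((Z P).count (((Fintype.card k : ℂ) ^ i) ^ P.1.natDegree) : ℤ)) = 0 := by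
      rw [← finsum_zero (α := FinitePlace k)]
      refine finsum_congr fun P => ?_
      rw [hZ0 hj P]
      simp
    rw [h0, sub_zero]
    exact_mod_cast hle

end Pool.Agent.Results.MP_0b9e0b_ag.DworkFamilies
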