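import Pool.Agent.Zk51.BF.Final

/-!
# The conjecture of Beilinson and Bloch for varieties over function fields with models generated by
# abelian varieties

Let `k` be a field with `q` elements, `C` a smooth projective geometrically connected curve over `k` with
function field `K` (every global function field is of this kind), and let `X` be a smooth projective
variety of pure dimension `d - 1` over `K`, **in general not constant and not isotrivial**. It has a
model: a projective morphism `f : 𝒳 → C` with generic fibre `X`. We assume that `𝒳` is smooth over `k` (of
dimension `d`); the morphism `f` may have arbitrary singular fibres.

**Theorem.** Suppose that `𝒳` is in the class `𝒢` (`Generated`) described below. Then the Tate conjecture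
holds for `X` over `K` in all codimensions, homological and numerical equivalence coincide on `X`, and
**the formula of Beilinson and Bloch holds for `X`**: the space `CH^i(X)_0` of homologically trivial
cycles is finite-dimensional, and its dimension is the order of vanishing at `s = i` of the L-function
of `H^(2 i - 1)(X_K̄, ℚ_ℓ)`,

* in the codimensions `i ≤ 1` and `i ≥ d - 1` (divisors and zero-cycles), **hence in all codimensions if
  `X` is a curve or a surface**, without any condition on the fibres;
* in all codimensions if the union `Z` of the fibres over which `f` is not smooth and of at least one
  further fibre is in `𝒢`.

The class `𝒢`. Over an algebraic closure of the field with `p` elements each abelian variety is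
isogenous to the reduction of an abelian variety of CM type (Honda, Tate). So an abelian variety over
the field with `p ^ a` elements is modelled by `RedAV`: a finite product of CM types `(E i, Φ i)` with
Weil numbers `π i ∈ E i` that satisfy the formula of Shimura and Taniyama. We consider
(`IsGoodAbelian`) the abelian varieties `Y` of the following kinds:

* all abelian varieties of dimension at most five;
* the abelian varieties that are isogenous, over an algebraic closure, to a product of a supersingular
  abelian variety of any dimension and of simple abelian varieties of dimension at most three (any
  number, any multiplicity), such that any two nonisogenous factors of dimension three whose CM fields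
  have the same Galois closure satisfy one of the following: their fields are Galois over `ℚ`; their
  `p`-ranks are smaller than three and have sum different from three.

`Homology Ω V` are data of motivic homology `M X n j = H_n^M(X, ℚ(j)) = CH_j(X, n - 2 j) ⊗ ℚ` (higher
Chow groups) and of `ℓ`-adic homology `E X n j = H_n(X̄, ℚ_ℓ(j))` (coefficients extended to `Ω`) of
schemes `X : V` of finite type over finite fields, with the Frobenius and the regulator. `𝒢` is the
smallest class of schemes that contains those with the homology groups of the abelian varieties
above, that is closed under direct summands of finite sums of twists of motives, and that contains
all of a closed subscheme `Z` of `Y`, `Y` and `Y ∖ Z` if it contains two of them.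

Examples of varieties `X` over `K`:

* the twists `X` of `A_K`, for an abelian variety `A` over `k`, by a finite group `G` of automorphisms of
  the variety `A` and a covering `C' → C` with the group `G`, where `C'` is a curve such that the product
  of `A` and the Jacobian of `C'` is as above. If `G` acts freely on `A × C'` then `𝒳 = (A × C') / G`; the
  fibres are quotients of the varieties `A ⊗ k_w`, and they are in `𝒢` if the simple factors of `A` over
  an algebraic closure have dimension at most three. This contains the constant varieties `A_K`;
* nonisotrivial `X`: the varieties `f₁(x₁) ⋯ fₙ(xₙ) = t` over `K = k(t)`, for nonconstant functions `fᵢ` with
  simple zeros and poles, rational over `k`, on curves `Cᵢ` for which the product of the Jacobians is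
  as above, for instance if all curves have genus at most two, or if the sum of the genera is at most
  five. Here `𝒳` is obtained from `C₁ × ⋯ × Cₙ` by blowing up products of the curves and points, and the
  theorem gives the formula for divisors and for zero-cycles. (If `n ≤ 3` then the conjectures of Tate
  and Beilinson for `𝒳` are known for all curves `Cᵢ`, by Soulé.)

The data `Fibration` and their properties `IsFibration` (all of them are known for all `X` and `f`): the
decomposition theorem for `f` and Deligne's theorems on weights, on the semisimplicity of the geometric
fundamental group and on invariants; Poincaré duality on `𝒳` and `X`; the compatibility of cycle classes
with restrictions and intersection numbers; the cohomological formula of Grothendieck for the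
L-function; the theorem of Matsusaka and Kleiman that numerically trivial divisors on the fibres are
homologically trivial. The L-function of `H^(2 i - 1)(X_K̄, ℚ_ℓ(i))`, a power series in `T = q ^ (-s)`, is
defined as the product over all places `v` of `K` of the Euler factors
`det (1 - T ^ deg v * Frob_v | H^(2 i - 1)(X_K̄, ℚ_ℓ(i))^(I_v))⁻¹` (`IsLSeries`); its order at `T = 1` is the
order of the L-function of `H^(2 i - 1)(X_K̄, ℚ_ℓ)` at `s = i`.

That the conjecture of Beilinson and Bloch follows from the conjectures of Tate and of Beilinson for all
varieties over finite fields is due to Jannsen. Here the implication is proved (`Pool.Agent.Zk51.BF`)
for a single `X` from `TB` for the single variety `𝒳`: the homologically trivial cycles on `X`, as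
cycles on `𝒳`, span the space of the Tate classes in `H^(2 i)(𝒳̄)` which vanish on `X_K̄`, since the
intersection numbers with cycles of complementary codimension on `X` are rational and detect
homological equivalence (`span_triv`); the L-function is governed by the quotient
`H^1(C̄, ι_* H^(2 i - 1)(X_K̄, ℚ_ℓ(i)))` by the classes supported in fibres (`finrank_eigen`, `maxGen_eq`), and
one has to show that the Tate classes supported in fibres are classes of cycles supported in fibres
(`vertical_curves`, `vertical_of_bad`). The results of the starting files and of the other hand-ins on
this question are about constant abelian varieties, products with them, hyperelliptic curves and
diagonal hypersurfaces.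

Properties of the theory of cycles that are used for the abelian varieties (`IsChowS`, `IsMotivic`):
Poincaré duality, the formal properties of correspondences, the nilpotence of homologically trivial
correspondences (Kimura), the operation of the Frobenius endomorphism on higher Chow groups, the
vanishing of the higher rational `K`-groups of a finite field (Quillen), and the algebraicity of the
classes in the system `AlgS`, which is generated by Tate classes of degree two, by reductions of split
Weil classes on abelian fourfolds and sixfolds of CM type and by reductions of the Hodge classes of
degree four on products of elliptic curves and abelian surfaces of CM type (theorems of Tate, Markman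
and Ramón Marí).
-/

set_option autoImplicit false

namespace Pool.Agent.Results.MP_0b9e0b_ag.FibrationsGeneratedByAbelian

open Pool.Agent.W495.FM Pool.Agent.Zk51.BF

/-- **The conjecture of Beilinson and Bloch for the varieties over global function fields with models
generated by abelian varieties** of dimension at most five and by products of elliptic curves, abelian
surfaces and threefolds. -/
theorem result :
    ∀ (p : ℕ) [Fact p.Prime] (ν : PadicAlgCl p ≃+* ℂ) (Ω : Type) [Field Ω] [IsAlgClosed Ω]
      [CharZero Ω] (V : Type) (T : Homology Ω V), IsHomology T →
        BlochForClass T (IsGoodAbelian p ν T) :=
  fun _ _ _ _ _ _ _ _ _ => blochForGood

end Pool.Agent.Results.MP_0b9e0b_ag.FibrationsGeneratedByAbelian
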